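import Pool.Agent.helper79.SX.Spec

set_option autoImplicit false

open Finset ArithmeticFunction

namespace Pool.Agent.SX

/-- `s log s - s` -/
noncomputable def CH3_p (s : ℝ) : ℝ := s * Real.log s - s

theorem CH3_mono (a b : ℝ) (ha : 1 ≤ a) (hab : a ≤ b) : CH3_p a ≤ CH3_p b := by
  have ha0 : 0 < a := by linarith
  have hb0 : 0 < b := by linarith
  have h1 := Real.one_sub_inv_le_log_of_pos (div_pos hb0 ha0)
  rw [Real.log_div hb0.ne' ha0.ne', inv_div] at h1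
  have h2 : 0 ≤ Real.log a := Real.log_nonneg ha
  have h3 : b * (1 - a / b) ≤ b * (Real.log b - Real.log a) :=
    mul_le_mul_of_nonneg_left h1 hb0.le
  have h4 : b * (1 - a / b) = b - a := by
    field_simp
  rw [h4] at h3
  unfold CH3_p
  nlinarith [mul_nonneg (sub_nonneg.2 hab) h2]

theorem CH3_T (h2 : CH2_stmt) (s : ℝ) (hs : 1 ≤ s) :
    CH3_p s - 1 / 2 * Real.log s + 11 / 20 ≤ Real.log ((⌊s⌋₊).factorial : ℝ) ∧
    Real.log ((⌊s⌋₊).factorial : ℝ) ≤ CH3_p s + 1 / 2 * Real.log s + 1 := by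
  have hs0 : 0 < s := by linarith
  have hN : 1 ≤ ⌊s⌋₊ := by
    rw [Nat.one_le_floor_iff]
    exact hs
  have hN1 : (1 : ℝ) ≤ (⌊s⌋₊ : ℝ) := by exact_mod_cast hN
  have hNs : (⌊s⌋₊ : ℝ) ≤ s := Nat.floor_le hs0.le
  have hsN : s ≤ ((⌊s⌋₊ + 1 : ℕ) : ℝ) := by
    push_cast
    exact (Nat.lt_floor_add_one s).le
  constructor
  · have a1 := (h2 (⌊s⌋₊ + 1) (by omega)).1
    have a2 : Real.log (((⌊s⌋₊ + 1).factorial : ℕ) : ℝ) =
        Real.log ((⌊s⌋₊ + 1 : ℕ) : ℝ) + Real.log ((⌊s⌋₊).factorial : ℝ) := by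
      rw [Nat.factorial_succ, Nat.cast_mul, Real.log_mul]
      · exact Nat.cast_ne_zero.2 (Nat.succ_ne_zero ⌊s⌋₊)
      · exact Nat.cast_ne_zero.2 (Nat.factorial_ne_zero ⌊s⌋₊)
    have a3 := CH3_mono s ((⌊s⌋₊ + 1 : ℕ) : ℝ) hs hsN
    have a4 : Real.log ((⌊s⌋₊ + 1 : ℕ) : ℝ) ≤ Real.log 2 + Real.log s := by
      rw [← Real.log_mul two_ne_zero hs0.ne']
      apply Real.log_le_log
      · positivity
      · push_cast
        linarith
    have a5 : Real.log 2 < 0.6931471808 := Real.log_two_lt_d9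
    unfold CH3_p at a3 ⊢
    rw [a2] at a1
    linarith
  · have a1 := (h2 ⌊s⌋₊ hN).2
    have a3 := CH3_mono (⌊s⌋₊ : ℝ) s hN1 hNs
    have a4 : Real.log (⌊s⌋₊ : ℝ) ≤ Real.log s := Real.log_le_log (by linarith) hNs
    unfold CH3_p at a3 ⊢
    linarith

theorem CH3_div (x : ℝ) (hx : 0 < x) (k : ℝ) (hk : 0 < k) :
    CH3_p (x / k) = x / k * (Real.log x - Real.log k) - x / k := by
  unfold CH3_p
  rw [Real.log_div hx.ne' hk.ne']

theorem CH3 (h2 : CH2_stmt) (hA : CHA_stmt) : CH3_stmt := by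
  intro x hx
  have hx0 : 0 < x := by linarith
  have f2 : ⌊x⌋₊ / 2 = ⌊x / 2⌋₊ := by
    have := Nat.floor_div_natCast x 2
    rw [Nat.cast_ofNat] at this
    exact this.symm
  have f3 : ⌊x⌋₊ / 3 = ⌊x / 3⌋₊ := by
    have := Nat.floor_div_natCast x 3
    rw [Nat.cast_ofNat] at this
    exact this.symm
  have f5 : ⌊x⌋₊ / 5 = ⌊x / 5⌋₊ := by
    have := Nat.floor_div_natCast x 5
    rw [Nat.cast_ofNat] at this
    exact this.symm
  have f30 : ⌊x⌋₊ / 30 = ⌊x / 30⌋₊ := by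
    have := Nat.floor_div_natCast x 30
    rw [Nat.cast_ofNat] at this
    exact this.symm
  obtain ⟨l1, u1⟩ := CH3_T h2 x (by linarith)
  obtain ⟨l2, u2⟩ := CH3_T h2 (x / 2) (by linarith)
  obtain ⟨l3, u3⟩ := CH3_T h2 (x / 3) (by linarith)
  obtain ⟨l5, u5⟩ := CH3_T h2 (x / 5) (by linarith)
  obtain ⟨l30, u30⟩ := CH3_T h2 (x / 30) (by linarith)
  have e30 : Real.log 30 = Real.log 2 + Real.log 3 + Real.log 5 := by
    rw [← Real.log_mul (by norm_num) (by norm_num), ← Real.log_mul (by norm_num) (by norm_num)]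
    norm_num
  have g30 : 19 / 10 ≤ Real.log 30 := by
    have h1 : Real.log 16 ≤ Real.log 30 := Real.log_le_log (by norm_num) (by norm_num)
    have h3 : Real.log 16 = 4 * Real.log 2 := by
      rw [show (16 : ℝ) = 2 ^ 4 by norm_num, Real.log_pow]
      norm_num
    have h4 := Real.log_two_gt_d9
    linarith
  obtain ⟨A1, A2⟩ := hA
  have B1 := mul_le_mul_of_nonneg_left A1 hx0.le
  have B2 := mul_le_mul_of_nonneg_left A2 hx0.le
  rw [CH3_div x hx0 2 (by norm_num), Real.log_div hx0.ne' (by norm_num)] at l2 u2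
  rw [CH3_div x hx0 3 (by norm_num), Real.log_div hx0.ne' (by norm_num)] at l3 u3
  rw [CH3_div x hx0 5 (by norm_num), Real.log_div hx0.ne' (by norm_num)] at l5 u5
  rw [CH3_div x hx0 30 (by norm_num), Real.log_div hx0.ne' (by norm_num)] at l30 u30
  unfold CH3_p at l1 u1
  rw [e30] at l30 u30 g30
  unfold FC
  rw [f2, f3, f5, f30]
  constructor
  · linarith
  · linarith

end Pool.Agent.SX
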